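import Pool.Agent.TH680.HP.Stage
import Pool.Agent.TH680.ND.Law

/-!
# `NP`-hard disjoint `NP`-pairs relative to random oracles: the exact density threshold

The strings `x` are put into the oracle `A` independently, with a probability `q |x|` that depends on
the length only, where `q` is an arbitrary function (`rand q` is the distribution of `A`). Let
`rare q n = 2 ^ n * min (q n) (1 - q n)`, the expected number of the strings of length `n` for which
`A` has the less probable value.

(1) If `rare q` is not bounded by a polynomial then, for every oracle `Q` and almost all `A`, no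
disjoint `NP`-pair is `NP`-hard, relative to `Q ⊕ A`. Indeed there is one language `L` in `NP` such
that every disjoint `NP`-pair has a separator to which `L` does not reduce.

(2) If `rare q` is bounded by a polynomial then, for some oracle `Q` and almost all `A`, there is an
`NP`-hard disjoint `NP`-pair relative to `Q ⊕ A`, and even one that consists of tally sets.

(3) If the series `∑ rare q` diverges then, for every `Q` and almost all `A`, `NP` and `coNP` are
different relative to `Q ⊕ A`. So between the two thresholds, hard pairs exist although
`NP ≠ coNP`, with the same `Q` as in (2).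

(4) If the series converges then, for every `Q` and almost all `A`, the same pairs are hard relative
to `Q ⊕ A` and to `Q ⊕ common q`, where `common q` is the set of the strings with `q > 1 / 2`: the
random oracle does not matter.

The proof of (1). For a length `N` with large `rare q N` one can choose polynomially many cones, and
`2 ^ n` blocks of strings of length `N` in each of them, such that the expected number of the
witnesses of each cone (blocks all of whose bits are rare) is between `1 / 4` and `1 / 2`. Suppose
that for a part of the oracles the pair is disjoint and the reduction is right for all separators,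
for the question whether a given cone has a witness. Planting one witness into a cone without
witnesses must lead to a bad oracle for most of the blocks, unless planting two witnesses into this
cone often makes the pair not disjoint (the separator is chosen by a majority vote over the blocks).
If the latter is the case for all cones, then the violation of the disjointness depends on many
cones (it can be repaired by a change of the cone), but a violation has a small certificate. So the
bad oracles have a constant share, for infinitely many lengths.

The proof of (2). There is an oracle `Q` such that `P = NP` relative to `Q ⊕ common q`. Call a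
string a needle if `A` has the less probable value. If the strings of length `N` are divided by
short prefixes into polynomially many cells, then almost surely each cell contains at most one
needle, for all large `N`. The pair: the positions of the ones, and of the zeros, of the needles.
Relative to any separator all the needles can be found.
-/

set_option autoImplicit false

namespace Pool.Agent.Results.MP_80aaf5_lc.DensityThreshold

open MeasureTheory Pool.Agent.NPC Pool.Agent.H620R2.Gauge Pool.Agent.H622R2
open Pool.Agent.W900.IE (indep isFP_postcomp)

/-- The distribution of the random oracle: the strings `x` are in the oracle with probability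
`q |x|`, independently. -/
noncomputable def rand (q : ℕ → unitInterval) : Measure Oracle := indep (fun x => q x.length)

/-- The expected number of the strings of length `n` for which the random oracle has the less
probable value. -/
noncomputable def rare (q : ℕ → unitInterval) (n : ℕ) : ℝ := 2 ^ n * min (q n : ℝ) (1 - q n)

/-- The function `rare q` is bounded by a polynomial. -/
def Bounded (q : ℕ → unitInterval) : Prop := ∃ c : ℕ, ∀ n : ℕ, rare q n ≤ (n : ℝ) ^ c + c

/-- The oracle of the more probable values. -/
noncomputable def common (q : ℕ → unitInterval) : Oracle := fun x =>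
  decide ((1 / 2 : ℝ) < q x.length)

/-- The disjoint union of the oracles `Q` and `A`. -/
def join (Q A : Oracle) : Oracle
  | [] => false
  | false :: z => Q z
  | true :: z => A z

/-- The sets `B` and `D` are a disjoint `NP`-pair relative to the oracle `O`. -/
def IsPair (O : Oracle) (B D : Set (List Bool)) : Prop :=
  B.Nonempty ∧ D.Nonempty ∧ IsNP O B ∧ IsNP O D ∧ Disjoint B D

/-- The set `T` is a separator of the pair `(B, D)`. -/
def IsSep (B D : Set (List Bool)) (T : Oracle) : Prop :=
  (∀ y ∈ B, T y = true) ∧ ∀ y ∈ D, T y = false

/-- The pair `(B, D)` is a disjoint `NP`-pair relative to `O`, and it is `NP`-hard: every language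
in `NP` relative to `O` is in polynomial time relative to `O ⊕ T`, for every separator `T`. -/
def HardPair (O : Oracle) (B D : Set (List Bool)) : Prop :=
  IsPair O B D ∧ ∀ L, IsNP O L → ∀ T, IsSep B D T → IsP (join O T) L

/-- The elements of `B` are strings of ones. -/
def Tally (B : Set (List Bool)) : Prop := ∀ x ∈ B, x = List.replicate x.length true

theorem join_eq : TH680.OD.join = join := by
  funext Q A x
  rcases x with _ | ⟨b, z⟩
  · rfl
  · cases b <;> rfl

theorem dev_eq (q : ℕ → unitInterval) : W900.IE.dev (TH680.DT.pq q) = rare q := by
  funext n
  unfold W900.IE.dev TH680.DT.pq rare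
  have h : ∀ v : Fin n → Bool, min (q (List.ofFn v).length : ℝ) (1 - q (List.ofFn v).length) =
      min (q n : ℝ) (1 - q n) := fun v => by rw [List.length_ofFn]
  rw [Finset.sum_congr rfl fun v _ => h v, Finset.sum_const, nsmul_eq_mul, Finset.card_univ]
  simp

theorem poly_join {E : List Bool → Bool} (hE : Poly E) (b : Bool) :
    Poly (fun x : List Bool => decide (x.head? = some b) && E x.tail) :=
  Poly.and (Poly.decide_eq (Poly.head? Poly.id) (NPC.Poly.const _)) (hE.comp (Poly.tail Poly.id))

theorem join_xor (Q : Oracle) {A D : Oracle} {E : List Bool → Bool}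
    (h : ∀ x, D x = (A x ^^ E x)) (x : List Bool) :
    join Q D x = (join Q A x ^^ (decide (x.head? = some true) && E x.tail)) := by
  rcases x with _ | ⟨b, z⟩
  · rfl
  · cases b with
    | false => simp [join]
    | true =>
      show D z = _
      rw [h]
      simp [join]

theorem join_xor' (S : Oracle) {A D : Oracle} {E : List Bool → Bool}
    (h : ∀ x, D x = (A x ^^ E x)) (x : List Bool) :
    join D S x = (join A S x ^^ (decide (x.head? = some false) && E x.tail)) := by
  rcases x with _ | ⟨b, z⟩
  · rfl
  · cases b with
    | true => simp [join]
    | false =>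
      show D z = _
      rw [h]
      simp [join]

theorem same_hard {O O' : Oracle} {E : List Bool → Bool} (hE : Poly E)
    (h : ∀ x, O' x = (O x ^^ E x)) (B D : Set (List Bool)) :
    HardPair O B D ↔ HardPair O' B D := by
  have h1 := TH680.DT.same_isFP hE h
  have h2 : ∀ T F, IsFP (join O T) F ↔ IsFP (join O' T) F := fun T =>
    TH680.DT.same_isFP (poly_join hE false) (join_xor' T h)
  have hNP : ∀ L, IsNP O L ↔ IsNP O' L := fun L => by
    unfold IsNP
    simp only [h1]
  have hP : ∀ T L, IsP (join O T) L ↔ IsP (join O' T) L := fun T L => by
    unfold IsP
    simp only [h2]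
  unfold HardPair IsPair
  simp only [hNP, hP]

/-- adding one element -/
theorem isNP_insert {O : Oracle} {L : Set (List Bool)} (hL : IsNP O L) (a : List Bool) :
    IsNP O (insert a L) := by
  obtain ⟨V, p, hV, h⟩ := hL
  have h1 : IsFP O (fun u => pairBits u (V u)) :=
    IsFP.pair (IsFP.of_poly (F := fun u => u) Poly.id) hV
  have h2 : Poly (fun z : List Bool => if (unpair (unpair z).1).2 = a then [true] else
      (unpair z).2) :=
    Poly.ite (Poly.decide_eq (Poly.snd (poly_unpair.comp (Poly.fst poly_unpair)))
      (NPC.Poly.const a)) (NPC.Poly.const [true]) (Poly.snd poly_unpair)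
  refine ⟨fun u => if (unpair u).2 = a then [true] else V u, p, ?_, fun x => ?_⟩
  · have h3 := isFP_postcomp h1 h2
    have h4 : (fun u => if (unpair u).2 = a then [true] else V u) = fun u =>
        if (unpair (unpair (pairBits u (V u))).1).2 = a then [true] else
          (unpair (pairBits u (V u))).2 := by
      funext u
      rw [unpair_pairBits]
    rw [h4]
    exact h3
  · simp only [unpair_pairBits]
    by_cases hx : x = a
    · simp only [if_pos hx]
      exact ⟨fun _ => ⟨[], by simp⟩, fun _ => Or.inl hx⟩
    · simp only [if_neg hx]
      rw [Set.mem_insert_iff, h x]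
      simp [hx]

/-- **`NP`-hard disjoint `NP`-pairs relative to random oracles: the exact density threshold.** -/
theorem result (q : ℕ → unitInterval) :
    (¬ Bounded q → ∀ Q : Oracle, ∀ᵐ A ∂(rand q), ∃ L, IsNP (join Q A) L ∧
      ∀ B D, IsPair (join Q A) B D → ∃ T, IsSep B D T ∧ ¬ IsP (join (join Q A) T) L) ∧
    (Bounded q → ∃ Q : Oracle, ∀ᵐ A ∂(rand q), ∃ B D, Tally B ∧ Tally D ∧
      HardPair (join Q A) B D) ∧
    (¬ Summable (rare q) → ∀ Q : Oracle, ∀ᵐ A ∂(rand q),
      ∃ L, IsNP (join Q A) L ∧ ¬ IsNP (join Q A) Lᶜ) ∧
    (Summable (rare q) → ∀ Q : Oracle, ∀ᵐ A ∂(rand q), ∀ B D,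
      (HardPair (join Q A) B D ↔ HardPair (join Q (common q)) B D)) := by
  refine ⟨fun h Q => ?_, fun h => ?_, fun h Q => ?_, fun h Q => ?_⟩
  · have h0 : ¬ ∃ c : ℕ, ∀ n, W900.IE.dev (TH680.DT.pq q) n ≤ (n : ℝ) ^ c + c := by
      rw [dev_eq]
      exact h
    have h1 := TH680.HP.ae_nohard h0 Q
    rw [join_eq] at h1
    filter_upwards [h1] with A hA
    obtain ⟨L, hL, hA⟩ := hA
    refine ⟨L, hL, ?_⟩
    rintro B D ⟨_, _, hB, hD, hdis⟩
    obtain ⟨T, h2, h3, h4⟩ := hA B D hB hD hdis
    exact ⟨T, ⟨h2, h3⟩, h4⟩
  · obtain ⟨c, hc⟩ := h
    obtain ⟨Q, hQ, hNP⟩ := TH680.ND.exists_above2 (C := TH680.ND.cm q) (fun x y hxy => by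
      unfold TH680.ND.cm
      rw [hxy])
    refine ⟨Q, ?_⟩
    have h1 := TH680.ND.ae_pair hc hQ
    filter_upwards [h1] with A hA
    obtain ⟨N₀, hA⟩ := hA
    refine ⟨insert [] (TH680.ND.tl (2 * c + 2) N₀ true (TH680.OD.join Q A)),
      insert [true] (TH680.ND.tl (2 * c + 2) N₀ false (TH680.OD.join Q A)), ?_, ?_, ?_, ?_⟩
    · intro x hx
      rcases hx with rfl | hx
      · rfl
      · exact TH680.ND.tl_tally hx
    · intro x hx
      rcases hx with rfl | hx
      · rfl
      · exact TH680.ND.tl_tally hx
    · refine ⟨⟨_, Set.mem_insert _ _⟩, ⟨_, Set.mem_insert _ _⟩, ?_, ?_, ?_⟩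
      · rw [← join_eq]
        exact isNP_insert (TH680.ND.isNP_tl _ _ _ _) _
      · rw [← join_eq]
        exact isNP_insert (TH680.ND.isNP_tl _ _ _ _) _
      · rw [Set.disjoint_left]
        rintro x (hx | hx) (hx' | hx')
        · rw [hx] at hx'
          exact absurd hx' (by simp)
        · have h2 := TH680.ND.two_le_tl hx'
          rw [hx] at h2
          simp at h2
        · have h2 := TH680.ND.two_le_tl hx
          rw [Set.mem_singleton_iff.1 hx'] at h2
          simp at h2
        · exact hA x hx hx'
    · rintro L hL T ⟨hT1, hT0⟩
      rw [← join_eq] at hL ⊢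
      refine TH680.ND.hard_tally hQ (fun L hL => hNP L ?_) (t := 2 * c + 2) (N₀ := N₀)
        (fun x hx => hT1 x (Set.mem_insert_of_mem _ hx))
        (fun x hx => hT0 x (Set.mem_insert_of_mem _ hx)) hL
      have h4 : Pool.Agent.H591R3.PHG.IsSig (TH680.OD.join Q (TH680.ND.cm q)) 1 L := hL
      exact h4.isPH.isPSPACE
  · have h1 := TH680.ND.ae_conp (q := q) h Q
    rw [join_eq] at h1
    exact h1
  · rw [← dev_eq] at h
    filter_upwards [TH680.DT.ae_same h] with A hA
    have hx : ∀ x, common q x = (A x ^^ (A x ^^ common q x)) := fun x => by
      cases A x <;> cases common q x <;> rfl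
    exact same_hard (poly_join hA true) (join_xor Q hx)

end Pool.Agent.Results.MP_80aaf5_lc.DensityThreshold
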