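import Pool.Agent.TH93.DP.Law

/-!
# Disjoint `NP` pairs and guessed bits relative to a random oracle

`InG g X L` says that `L` is in `NP` relative to `X` with `g (n)` guessed bits, and `Nice g` that
`g (n)` is computed in unary in polynomial time. `Solves X O` says that the oracle `O` is at least as
strong as all disjoint `NP` pairs relative to `X` together: every pair has a separator `T` such that
everything that is computed in polynomial time relative to `X ⊕ T` is computed in polynomial time
relative to `O`.

Theorem. For every oracle `B` and almost every oracle `A`, for all `g`, the following are equivalent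
relative to `X = A ⊕ B`:

1. `g (n) = O (log n)`;
2. all languages in `NP` with `g (n)` guessed bits are in `P`;
3. some disjoint `NP` pair is hard, under Turing reductions, for all these languages;
4. for each of these languages `L` there is some disjoint `NP` pair such that, relative to every
   separator, `L` is in `BPP` or in `coAM`;
5. each of these languages is in `BPP`, `BQP`, `coAM` or `coQMA` relative to every oracle which is
   at least as strong as all disjoint `NP` pairs together.

So relative to a random oracle the disjoint `NP` pairs, even all together, help to decide the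
languages with few guessed bits only when these are in `P` anyway.
-/

set_option autoImplicit false

namespace Pool.Agent.Results.MP_80aaf5_lc.GuessedBitsPairs

open Pool.Agent.H628R3.RO Pool.Agent.TH93.DP MeasureTheory
open Pool.Agent.H822R2.ESY (join IsP IsBPP)
open Pool.Agent.TH93.U2 (IsAM IsQMA)
open Pool.Agent.H620R2.Gauge (IsBQP)

/-- **Disjoint `NP` pairs and guessed bits relative to a random oracle.** -/
theorem result (B : Oracle) : ∀ᵐ A ∂randomOracle, ∀ g : ℕ → ℕ, Nice g → List.TFAE [
    ∃ c, ∀ n, g n ≤ c * (Nat.log 2 n + 1),
    ∀ L, InG g (join A B) L → IsP (join A B) L,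
    ∃ K₀ K₁ : Set (List Bool), IsPair (IsNP (join A B)) K₀ K₁ ∧ K₀.Nonempty ∧ K₁.Nonempty ∧
      ∀ L, InG g (join A B) L → ∀ T, Sepr K₀ K₁ T → IsP (join (join A B) T) L,
    ∀ L, InG g (join A B) L → ∃ K₀ K₁ : Set (List Bool), IsPair (IsNP (join A B)) K₀ K₁ ∧
      ∀ T, Sepr K₀ K₁ T → IsBPP (join (join A B) T) L ∨ IsAM (join (join A B) T) Lᶜ,
    ∀ L, InG g (join A B) L → ∀ O, Solves (join A B) O →
      IsBPP O L ∨ IsBQP O L ∨ IsAM O Lᶜ ∨ IsQMA O Lᶜ] :=
  law B

end Pool.Agent.Results.MP_80aaf5_lc.GuessedBitsPairs
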