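import Pool.Agent.TH682.DP.Grp
import Pool.Agent.TH682.DP.Half

/-!
# Disjoint `NP`-pairs that can be learned online

Polynomial time is Mathlib's `Turing.TM2ComputableInPolyTime`, for functions on bit strings.

The question (Even, Selman, Yacobi) is whether there is an `NP`-hard disjoint `NP`-pair `(A, B)`,
that is, one such that `SAT` is Cook reducible to every separator of `(A, B)`.

Theorem. Let `(A, B)` be a disjoint `NP`-pair that can be learned online (in Littlestone's mistake
bound model) in polynomial time with polynomially many mistakes.
(1) Every language that is Cook reducible to all separators of `(A, B)` is in `P^NP[O(log n)]`.
(2) If `coNP ⊆ NP^S` for all separators `S` of `(A, B)`, then the polynomial hierarchy is contained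
in `P^NP[O(log n)]`.
(3) In particular this is so if `(A, B)` is `NP`-hard.

Pairs that are separated by nonuniform permutation groups, and pairs that are separated by nonuniform
half-spaces with a polynomial margin in Hilbert spaces with a feasible kernel, can be learned online.

Proof. Since a query algorithm asks finitely many questions, a Baire category argument in the compact
space of all separators shows that for every language `L` that is reducible to all separators one
algorithm reduces `L` to all separators with some fixed values at finitely many strings. A sequence
of mistakes of the learner has short certificates, since `A` and `B` are in `NP`; if such a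
sequence, for strings shorter than `m`, has the maximal length, then the predictions of the learner
after this sequence are correct on all strings in `A ∪ B` shorter than `m`, hence they are given by
a separator. So the languages reducible to all separators are decided in (nondeterministic)
polynomial time with any longest sequence of mistakes; if `coNP` is among them, then by induction so
is every language in the polynomial hierarchy. The length of the longest sequences is found by
`O(log n)` queries to `NP` (binary search), and the last query asks for a sequence of this length
with which the input is accepted.
-/

set_option autoImplicit false

namespace Pool.Agent.Results.MP_80aaf5_lc.LearnablePairs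

open Pool.Agent.NPC Pool.Agent.TH682.KD Pool.Agent.TH682.DP Pool.Agent.W903.GP

/-- **Disjoint `NP`-pairs that can be learned online.** Let `A` and `B` be disjoint languages in `NP`
such that the pair `(A, B)` can be learned online in polynomial time with polynomially many
mistakes. Every language that is Cook reducible to all separators of `(A, B)` is in
`P^NP[O(log n)]`. If the complements of all languages in `NP` are in `NP^S` for every separator `S`
of `(A, B)`, in particular if `(A, B)` is `NP`-hard, then the polynomial hierarchy is contained in
`P^NP[O(log n)]`. Pairs separated by permutation groups or by half-spaces with a polynomial margin
can be learned online. -/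
theorem result :
    (∀ A B : Set (List Bool), InNP A → InNP B → Disjoint A B → Learnable A B →
      (∀ L, (∀ S, IsSep A B S → InPT S L) → InPNPLog L) ∧
      ((∀ L, InNP L → ∀ S, IsSep A B S → InNPT S Lᶜ) → ∀ L, InPH L → InPNPLog L) ∧
      (HardPair A B → ∀ L, InPH L → InPNPLog L)) ∧
    (∀ A B : Set (List Bool), GroupSeparated A B → Learnable A B) ∧
    (∀ A B : Set (List Bool), HalfSpaceSeparated A B → Learnable A B) :=
  ⟨fun _ _ hA hB hAB hLr => ⟨fun _ hL => reducible_log hA hB hAB hLr hL,
    fun hH _ hL => collapseN hA hB hAB hLr hH hL,
    fun hH _ hL => collapseN hA hB hAB hLr (fun L hL S hS => inNPT_compl (hH L hL S hS)) hL⟩,
    fun _ _ h => learnable_of_group h, fun _ _ h => learnable_of_halfSpace h⟩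

end Pool.Agent.Results.MP_80aaf5_lc.LearnablePairs
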