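import Pool.Agent.TH93.U2.Ends

set_option autoImplicit false

/-!
# Relative to a random oracle, all disjoint `NP` pairs together are not hard for two witnesses

The starting results show that relative to a random oracle no disjoint `NP` pair is `NP`-hard.
Here one oracle `O` contains a separator of each disjoint `NP` pair and decides all languages in
`UP`, and still it is of no help for a language with at most two witnesses.
-/

namespace Pool.Agent.Results.MP_80aaf5_lc.TwoWitnesses

open Pool.Agent.H628R3.RO
open Pool.Agent.H822R2.ESY (join IsP IsBPP)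
open Pool.Agent.TH93.U2

/-- For every oracle `B` and almost every oracle `A` there are a language `L` which has an `NP`
verifier relative to `A` that accepts at most two witnesses for every string, and an oracle `O` such
that every disjoint `NP` pair relative to `A ⊕ B` has a separator `T` such that everything that is
computed in polynomial time relative to `(A ⊕ B) ⊕ T` is computed in polynomial time relative to
`O`, every language in `UP` relative to `A ⊕ B` is in `P` relative to `O`, but `L` is not in `P`,
not in `BPP` and not in `coNP` relative to `O`. -/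
theorem result (B : Oracle) : ∀ᵐ A ∂randomOracle, ∃ (L : Set (List Bool)) (O : Oracle),
    IsUPle 2 A L ∧
    (∀ K : Set (List Bool), IsUP (join A B) K → IsP O K) ∧
    (∀ K₀ K₁ : Set (List Bool), IsPair (IsNP (join A B)) K₀ K₁ → ∃ T : Oracle,
      (∀ q ∈ K₀, T q = true) ∧ (∀ q ∈ K₁, T q = false) ∧
      ∀ F : List Bool → List Bool, IsFP (join (join A B) T) F → IsFP O F) ∧
    ¬ IsP O L ∧ ¬ IsBPP O L ∧ ¬ IsCoNP O L := by
  filter_upwards [ends B] with A hA
  obtain ⟨L, S, h1, h2, h3, h4⟩ := hA
  refine ⟨L, join (join A B) S, h1, h2, fun K₀ K₁ hK => ?_, fun h => h4.bpp h.isBPP, h4.bpp,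
    fun h => h4.am (am_of_np h)⟩
  obtain ⟨T, g0, g1, -, g2⟩ := h3 K₀ K₁ hK
  exact ⟨T, g0, g1, g2⟩

end Pool.Agent.Results.MP_80aaf5_lc.TwoWitnesses
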